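import Mathlib

/-!
# MP_bc5e1d_co : Nikiforov's problem on consecutive cycle lengths, `C* = (3 - √5)/2`.

Definitions and the statements (as `Prop`s) of all parts of the proof.
-/

namespace Pool.Agent.W857.CC

open Finset
open scoped Classical

/-- The largest eigenvalue of the adjacency matrix of `G`. -/
noncomputable def lam {V : Type} [Fintype V] (G : SimpleGraph V) : ℝ :=
  sSup {μ : ℝ | ∃ x : V → ℝ, x ≠ 0 ∧ (G.adjMatrix ℝ).mulVec x = μ • x}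

/-- `G` contains a cycle of length `ℓ`. -/
def HasCycle {V : Type} (G : SimpleGraph V) (ℓ : ℕ) : Prop :=
  ∃ (v : V) (p : G.Walk v v), p.IsCycle ∧ p.length = ℓ

/-- `C` is admissible. -/
def Admissible (C : ℝ) : Prop :=
  0 < C ∧ ∀ ε : ℝ, 0 < ε → ε < C → ∃ n₀ : ℕ, ∀ n : ℕ, n₀ ≤ n → ∀ G : SimpleGraph (Fin n),
    Real.sqrt ((n ^ 2 / 4 : ℕ) : ℝ) < lam G →
      ∀ ℓ : ℕ, 3 ≤ ℓ → (ℓ : ℝ) ≤ (C - ε) * n → HasCycle G ℓ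

/-- The value of `C*`. -/
noncomputable def Cst : ℝ := (3 - Real.sqrt 5) / 2

/-! ## auxiliary definitions -/

/-- `(A x)_v` for the adjacency matrix `A` of `G`. -/
noncomputable def nsum {V : Type} [Fintype V] (G : SimpleGraph V) (x : V → ℝ) (v : V) : ℝ :=
  ∑ w, if G.Adj v w then x w else 0

/-- number of adjacent pairs in `A × B` (ordered pairs) -/
noncomputable def eb {V : Type} (G : SimpleGraph V) (A B : Finset V) : ℕ :=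
  #((A ×ˢ B).filter fun p => G.Adj p.1 p.2)

/-- number of neighbours of `v` in `A` -/
noncomputable def nb {V : Type} (G : SimpleGraph V) (v : V) (A : Finset V) : ℕ :=
  #(A.filter fun w => G.Adj v w)

/-- cluster `i` of a partition `part : V → ι` -/
noncomputable def cl {V ι : Type} [Fintype V] (part : V → ι) (i : ι) : Finset V :=
  univ.filter fun v => part v = i

/-- the edges of `G` inside `W` (as a graph on the same vertex set) -/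
def restr {V : Type} (G : SimpleGraph V) (W : Finset V) : SimpleGraph V where
  Adj a b := G.Adj a b ∧ a ∈ W ∧ b ∈ W
  symm := ⟨fun _ _ h => ⟨h.1.symm, h.2.2, h.2.1⟩⟩
  loopless := ⟨fun _ h => G.loopless.irrefl _ h.1⟩

/-- lower regularity of a pair -/
def LReg {V : Type} (G : SimpleGraph V) (ε γ : ℝ) (s t : Finset V) : Prop :=
  ∀ s' ⊆ s, ∀ t' ⊆ t, ε * #s ≤ #s' → ε * #t ≤ #t' → γ * #s' * #t' ≤ (eb G s' t' : ℝ)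

/-- `c 0, …, c (ℓ-1)` is a closed walk of `R` -/
def ClWalk {ι : Type} (R : SimpleGraph ι) (ℓ : ℕ) (c : ℕ → ι) : Prop :=
  (∀ i, i + 1 < ℓ → R.Adj (c i) (c (i + 1))) ∧ R.Adj (c (ℓ - 1)) (c 0)

/-- number of visits of the walk to `i` -/
noncomputable def visits {ι : Type} (ℓ : ℕ) (c : ℕ → ι) (i : ι) : ℕ :=
  #((range ℓ).filter fun t => c t = i)

/-- `G` contains a cycle of length `ℓ`, given by an injective sequence -/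
def Cyc {V : Type} (G : SimpleGraph V) (ℓ : ℕ) : Prop :=
  ∃ φ : ℕ → V, (∀ i, i < ℓ → ∀ j, j < ℓ → φ i = φ j → i = j) ∧ ClWalk G ℓ φ

/-- the graph `K_s ∨ (n-s) K_1` -/
def J (n s : ℕ) : SimpleGraph (Fin n) where
  Adj i j := i ≠ j ∧ (i.val < s ∨ j.val < s)
  symm := ⟨fun _ _ h => ⟨h.1.symm, h.2.symm⟩⟩
  loopless := ⟨fun _ h => h.1 rfl⟩

/-! ## the statements -/

/-- Perron vector -/
def S_PERRON : Prop := ∀ (V : Type) [Fintype V] [Nonempty V] (G : SimpleGraph V),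
  ∃ x : V → ℝ, (∀ v, 0 ≤ x v) ∧ (∃ v, 0 < x v) ∧ ∀ v, nsum G x v = lam G * x v

/-- Rayleigh quotients are at most `lam G` -/
def S_RAY : Prop := ∀ (V : Type) [Fintype V] [Nonempty V] (G : SimpleGraph V) (y : V → ℝ),
  ∑ v, y v * nsum G y v ≤ lam G * ∑ v, y v ^ 2

/-- deleting few edges changes `lam` little -/
def S_FROB : Prop := ∀ (V : Type) [Fintype V] [Nonempty V] (G H : SimpleGraph V) (κ : ℝ),
  (#(univ.filter fun p : V × V => G.Adj p.1 p.2 ∧ ¬ H.Adj p.1 p.2) : ℝ) ≤ κ →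
  lam G - Real.sqrt κ ≤ lam H

/-- passing to a component of the reduced graph -/
def S_COMP : Prop := ∀ (V : Type) [Fintype V] [Nonempty V] (k : ℕ) (H : SimpleGraph V)
  (part : V → Fin k) (R : SimpleGraph (Fin k)),
  (∀ u v, H.Adj u v → R.Adj (part u) (part v)) →
  ∃ S : Finset (Fin k), (∀ i ∈ S, ∀ j ∈ S, (restr R S).Reachable i j) ∧
    lam H ≤ lam (restr H (univ.filter fun v => part v ∈ S))

/-- blow-ups -/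
def S_BLOW : Prop := ∀ (V : Type) [Fintype V] [Nonempty V] (k : ℕ) (H : SimpleGraph V)
  (part : V → Fin k) (R : SimpleGraph (Fin k)) (s : ℝ),
  (∀ u v, H.Adj u v → R.Adj (part u) (part v)) → (∀ i, (#(cl part i) : ℝ) ≤ s) →
  lam H ≤ s * lam R

/-- a triangle-free graph has a cut with at least `lam ^ 2` edges -/
def S_CUT : Prop := ∀ (V : Type) [Fintype V] [Nonempty V] (G : SimpleGraph V),
  (∀ a b c, G.Adj a b → G.Adj b c → ¬ G.Adj a c) →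
  ∃ A : Finset V, lam G ^ 2 ≤ (eb G A Aᶜ : ℝ)

/-- Hall's theorem with deficiency -/
def S_HALL : Prop := ∀ (k t : ℕ) (R : SimpleGraph (Fin k)),
  (∀ X : Finset (Fin k), #X ≤ #(univ.filter fun j => ∃ i ∈ X, R.Adj i j) + t) →
  ∃ (D : Finset (Fin k)) (f : Fin k → Fin k),
    Set.InjOn f D ∧ (∀ i ∈ D, R.Adj i (f i)) ∧ k ≤ #D + t

/-- the real inequality behind the constant -/
def S_REAL : Prop := ∀ β : ℝ, 0 ≤ β → β < Cst → ∃ η : ℝ, 0 < η ∧ η < 1 / 2 ∧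
  ∀ a b c μ : ℝ, 0 ≤ a → 0 ≤ b → 0 ≤ c → a + b + c ≤ 1 → 2 * a + b ≤ β → 1 / 2 - η ≤ μ →
    b < μ ∧ a * (μ ^ 2 + c * (μ - b)) < μ ^ 2 * (μ - b)

/-- a graph on `k` vertices with large `lam` has a large partial injection along edges -/
def S_MATCH : Prop := ∀ ε : ℝ, 0 < ε → ∃ η : ℝ, 0 < η ∧ ∀ k : ℕ, 1 ≤ k →
  ∀ R : SimpleGraph (Fin k), (1 / 2 - η) * k ≤ lam R →
  ∃ (D : Finset (Fin k)) (f : Fin k → Fin k),
    Set.InjOn f D ∧ (∀ i ∈ D, R.Adj i (f i)) ∧ (Cst - ε) * k ≤ #D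

/-- closed walks in the reduced graph -/
def S_WALK : Prop := ∃ L : ℕ → ℕ, ∀ (k : ℕ) (R : SimpleGraph (Fin k)) (S : Finset (Fin k)),
  (∀ i ∈ S, ∀ j ∈ S, R.Reachable i j) → (∀ i j, R.Adj i j → i ∈ S ∧ j ∈ S) →
  (∃ a b c, R.Adj a b ∧ R.Adj b c ∧ R.Adj a c) →
  ∀ (D : Finset (Fin k)) (f : Fin k → Fin k), Set.InjOn f D → (∀ i ∈ D, R.Adj i (f i)) →
  ∀ r ℓ : ℕ, 3 ≤ ℓ → ℓ ≤ 2 * r * #D →
  ∃ c : ℕ → Fin k, ClWalk R ℓ c ∧ ∀ i, visits ℓ c i ≤ L k + 2 * r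

/-- embedding closed walks of the reduced graph as cycles -/
def S_EMB : Prop := ∀ γ η : ℝ, 0 < γ → γ ≤ 1 → 0 < η → η ≤ 1 → ∃ ε₀ : ℝ, 0 < ε₀ ∧
  ∀ ε : ℝ, 0 < ε → ε ≤ ε₀ → ∃ N : ℕ, ∀ (V : Type) [Fintype V] (k : ℕ) (G : SimpleGraph V)
    (part : V → Fin k) (R : SimpleGraph (Fin k)),
    (∀ i j, R.Adj i j → LReg G ε γ (cl part i) (cl part j)) →
    (∀ i, N ≤ #(cl part i)) →
    ∀ (ℓ : ℕ) (c : ℕ → Fin k), 3 ≤ ℓ → ClWalk R ℓ c →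
      (∀ i, (visits ℓ c i : ℝ) ≤ (1 - η) * #(cl part i)) → Cyc G ℓ

/-- Szemerédi's regularity lemma, cleaned -/
def S_REG : Prop := ∀ γ ε : ℝ, 0 < ε → ε ≤ γ → γ ≤ 1 → ∃ M n₀ : ℕ, ∀ n : ℕ, n₀ ≤ n →
  ∀ G : SimpleGraph (Fin n), ∃ k : ℕ, 1 ≤ k ∧ k ≤ M ∧
  ∃ (part : Fin n → Fin k) (R : SimpleGraph (Fin k)),
    (∀ i, (n : ℝ) / k - 1 ≤ #(cl part i) ∧ (#(cl part i) : ℝ) ≤ n / k + 1) ∧
    (∀ i j, R.Adj i j → LReg G ε γ (cl part i) (cl part j)) ∧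
    (#(univ.filter fun p : Fin n × Fin n => G.Adj p.1 p.2 ∧ ¬ R.Adj (part p.1) (part p.2)) : ℝ)
      ≤ 7 * γ * n ^ 2

/-- from an injective closed sequence to a cycle -/
def S_CYC : Prop := ∀ (V : Type) (G : SimpleGraph V) (ℓ : ℕ), 3 ≤ ℓ → Cyc G ℓ → HasCycle G ℓ

/-- the case distinction -/
def S_A : Prop := ∀ ε δ : ℝ, 0 < ε → 0 < δ → ∃ n₀ : ℕ, ∀ n : ℕ, n₀ ≤ n →
  ∀ G : SimpleGraph (Fin n), Real.sqrt ((n ^ 2 / 4 : ℕ) : ℝ) < lam G →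
    (∃ A : Finset (Fin n), (1 / 4 - δ) * (n : ℝ) ^ 2 ≤ eb G A Aᶜ) ∨
    ∀ ℓ : ℕ, 3 ≤ ℓ → (ℓ : ℝ) ≤ (Cst - ε) * n → HasCycle G ℓ

/-- a triangle -/
def S_TRI : Prop := ∀ (n : ℕ) (G : SimpleGraph (Fin n)),
  Real.sqrt ((n ^ 2 / 4 : ℕ) : ℝ) < lam G → ∃ a b c, G.Adj a b ∧ G.Adj b c ∧ G.Adj a c

/-- deleting a vertex of small degree -/
def S_NB1 : Prop := ∀ (V : Type) [Fintype V] [Nonempty V] (G : SimpleGraph V) (W : Finset V)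
  (v : V), v ∈ W → 10 ≤ #W → Real.sqrt ((#W ^ 2 / 4 : ℕ) : ℝ) < lam (restr G W) →
  (nb G v W : ℝ) ≤ #W / 10 →
  Real.sqrt (((#W - 1) ^ 2 / 4 : ℕ) : ℝ) < lam (restr G (W.erase v))

/-- deleting vertices of small degree -/
def S_NB2 : Prop := ∀ (n : ℕ) (G : SimpleGraph (Fin n)) (T : Finset (Fin n)), 20 ≤ n →
  (1 - 1 / 10 ^ 6) * (n : ℝ) ≤ #T → (∀ t ∈ T, 2 / 5 * (n : ℝ) ≤ nb G t univ) →
  Real.sqrt ((n ^ 2 / 4 : ℕ) : ℝ) < lam G →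
  ∃ W : Finset (Fin n), T ⊆ W ∧ Real.sqrt ((#W ^ 2 / 4 : ℕ) : ℝ) < lam (restr G W) ∧
    ∀ w ∈ W, (#W : ℝ) / 10 < nb G w W

/-- bipartite graphs -/
def S_NB3 : Prop := ∀ (V : Type) [Fintype V] [Nonempty V] (G : SimpleGraph V)
  (A B : Finset V), Disjoint A B → (∀ a ∈ A, ∀ a' ∈ A, ¬ G.Adj a a') →
  (∀ b ∈ B, ∀ b' ∈ B, ¬ G.Adj b b') →
  lam (restr G (A ∪ B)) ≤ Real.sqrt ((#(A ∪ B) ^ 2 / 4 : ℕ) : ℝ)

/-- most vertices have large degree -/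
def S_NB4 : Prop := ∀ (n : ℕ) (G : SimpleGraph (Fin n)) (A : Finset (Fin n)), 1 ≤ n →
  (1 / 4 - 1 / 10 ^ 8) * (n : ℝ) ^ 2 ≤ eb G A Aᶜ →
  (1 - 1 / 10 ^ 6) * (n : ℝ) ≤ #(univ.filter fun v => 2 / 5 * (n : ℝ) ≤ nb G v univ)

/-- the structure found in the nearly bipartite case -/
def Core {n : ℕ} (G : SimpleGraph (Fin n)) (X Y : Finset (Fin n)) (u v : Fin n) : Prop :=
  Disjoint X Y ∧ 12 / 25 * (n : ℝ) ≤ #X ∧ 12 / 25 * (n : ℝ) ≤ #Y ∧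
  (∀ x ∈ X, (#(Y.filter fun y => ¬ G.Adj x y) : ℝ) ≤ n / 100) ∧
  (∀ y ∈ Y, (#(X.filter fun x => ¬ G.Adj x y) : ℝ) ≤ n / 100) ∧
  G.Adj u v ∧ u ∉ Y ∧ v ∉ Y ∧ (n : ℝ) / 50 ≤ nb G u Y ∧ (n : ℝ) / 50 ≤ nb G v Y

/-- finding the core -/
def S_NB5 : Prop := ∀ (n : ℕ) (G : SimpleGraph (Fin n)) (A W : Finset (Fin n)), 1 ≤ n →
  (1 / 4 - 1 / 10 ^ 8) * (n : ℝ) ^ 2 ≤ eb G A Aᶜ → (1 - 1 / 10 ^ 6) * (n : ℝ) ≤ #W →
  (∀ w ∈ W, (#W : ℝ) / 10 < nb G w W) →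
  (∀ P Q : Finset (Fin n), Disjoint P Q → P ∪ Q = W →
    (∃ a ∈ P, ∃ a' ∈ P, G.Adj a a') ∨ (∃ b ∈ Q, ∃ b' ∈ Q, G.Adj b b')) →
  ∃ (X Y : Finset (Fin n)) (u v : Fin n), Core G X Y u v

/-- cycles from the core -/
def S_NB6 : Prop := ∀ (n : ℕ) (G : SimpleGraph (Fin n)) (X Y : Finset (Fin n)) (u v : Fin n),
  1000 ≤ n → Core G X Y u v → ∀ ℓ : ℕ, 4 ≤ ℓ → (ℓ : ℝ) ≤ 2 / 5 * n → Cyc G ℓ

/-- the nearly bipartite case -/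
def S_NB : Prop := ∀ n : ℕ, 1000 ≤ n → ∀ (G : SimpleGraph (Fin n)) (A : Finset (Fin n)),
  Real.sqrt ((n ^ 2 / 4 : ℕ) : ℝ) < lam G → (1 / 4 - 1 / 10 ^ 8) * (n : ℝ) ^ 2 ≤ eb G A Aᶜ →
  ∀ ℓ : ℕ, 3 ≤ ℓ → (ℓ : ℝ) ≤ 2 / 5 * n → HasCycle G ℓ

/-- spectral radius of `K_s ∨ (n-s) K_1` -/
def S_UP1 : Prop := ∀ n s : ℕ, 1 ≤ s → s ≤ n → n ^ 2 + 4 * s ^ 2 + 2 * n < 6 * s * n →
  (n : ℝ) / 2 < lam (J n s)

/-- cycles of `K_s ∨ (n-s) K_1` -/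
def S_UP2 : Prop := ∀ n s ℓ : ℕ, HasCycle (J n s) ℓ → ℓ ≤ 2 * s

/-- upper bound for admissible constants -/
def S_UP : Prop := ∀ C : ℝ, Cst < C → ¬ Admissible C

end Pool.Agent.W857.CC
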