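import Pool.Agent.W857.CC.Stm

namespace Pool.Agent.W857.CC.Cy

open Finset
open scoped Classical

theorem walk_of_seq {V : Type} (G : SimpleGraph V) (φ : ℕ → V) :
    ∀ m : ℕ, (∀ i, i < m → G.Adj (φ i) (φ (i + 1))) →
    ∃ q : G.Walk (φ 0) (φ m), q.length = m ∧ q.support = (List.range (m + 1)).map φ
  | 0, _ => ⟨SimpleGraph.Walk.nil, rfl, by simp [List.range_succ]⟩
  | m + 1, h => by
    obtain ⟨q, hq, hs⟩ := walk_of_seq G φ m (fun i hi => h i (by lia))
    refine ⟨q.concat (h m (by lia)), by simp [hq], ?_⟩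
    rw [SimpleGraph.Walk.support_concat, hs, List.range_succ (n := m + 1)]
    simp

theorem cyc : S_CYC := by
  intro V G ℓ hℓ hc
  obtain ⟨φ, hinj, hadj, hlast⟩ := hc
  obtain ⟨q, hq, hs⟩ := walk_of_seq G φ (ℓ - 1) (fun i hi => hadj i (by lia))
  refine ⟨φ (ℓ - 1), SimpleGraph.Walk.cons hlast q, ?_, by simp [hq]; lia⟩
  rw [SimpleGraph.Walk.isCycle_iff_isPath_tail_and_le_length]
  refine ⟨?_, by simp [hq]; lia⟩
  have hpath : q.IsPath := by
    rw [SimpleGraph.Walk.isPath_def, hs]
    refine List.Nodup.map_on ?_ List.nodup_range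
    intro x hx y hy hxy
    rw [List.mem_range] at hx hy
    exact hinj x (by lia) y (by lia) hxy
  simpa using hpath

theorem up2 : S_UP2 := by
  intro n s ℓ hc
  obtain ⟨v, p, hp, hl⟩ := hc
  -- the positions
  set g : ℕ → Fin n := p.getVert with hg
  have hinj := hp.getVert_injOn
  have hadj : ∀ i, i < ℓ → (J n s).Adj (g i) (g (i + 1)) := fun i hi =>
    p.adj_getVert_succ (by lia)
  have h0 : g 0 = g ℓ := by
    rw [hg, SimpleGraph.Walk.getVert_zero, ← hl, SimpleGraph.Walk.getVert_length]
  have key : ∀ i, i < ℓ → 1 ≤ (if (g i).val < s then 1 else 0) +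
      (if (g (i + 1)).val < s then 1 else 0) := by
    intro i hi
    have := (hadj i hi).2
    split_ifs <;> first | lia | (exfalso; tauto)
  have hsum : ℓ ≤ ∑ i ∈ range ℓ, ((if (g i).val < s then 1 else 0) +
      (if (g (i + 1)).val < s then 1 else 0)) := by
    calc ℓ = ∑ i ∈ range ℓ, 1 := by simp
      _ ≤ _ := Finset.sum_le_sum fun i hi => key i (Finset.mem_range.mp hi)
  rw [Finset.sum_add_distrib] at hsum
  have e1 : ∑ i ∈ range ℓ, (if (g i).val < s then 1 else 0) =
      ∑ i ∈ range ℓ, (if (g (i + 1)).val < s then 1 else 0) := by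
    have a1 := Finset.sum_range_succ (fun i => if (g i).val < s then 1 else 0) ℓ
    have a2 := Finset.sum_range_succ' (fun i => if (g i).val < s then 1 else 0) ℓ
    rw [h0] at a2
    lia
  rw [e1] at hsum
  have hcard : ∑ i ∈ range ℓ, (if (g (i + 1)).val < s then 1 else 0) ≤ s := by
    rw [← Finset.card_filter]
    have : #((range ℓ).filter fun i => (g (i + 1)).val < s) ≤ #(range s) := by
      apply Finset.card_le_card_of_injOn (fun i => (g (i + 1)).val)
      · intro i hi
        simp only [Finset.coe_filter, Finset.mem_range, Set.mem_ofPred_eq] at hi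
        simpa using hi.2
      · intro i hi j hj hij
        simp only [Finset.coe_filter, Finset.mem_range, Set.mem_ofPred_eq] at hi hj
        have := hinj (show i + 1 ∈ {i | 1 ≤ i ∧ i ≤ p.length} from ⟨by lia, by lia⟩)
          (show j + 1 ∈ {i | 1 ≤ i ∧ i ≤ p.length} from ⟨by lia, by lia⟩) (Fin.ext hij)
        lia
    simpa using this
  lia

end Pool.Agent.W857.CC.Cy
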