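import Pool.Agent.W857.CC.Stm

/-!
Project CC (helper857), parts NB1 and NB2: deleting vertices of small degree.
-/

set_option autoImplicit false

namespace Pool.Agent.W857.CC.NB12

open Finset SimpleGraph
open scoped Classical
open Pool.Agent.W857.CC

section

variable {V : Type} [Fintype V]

lemma lam_nonneg [Nonempty V] (hR : S_RAY) (H : SimpleGraph V) : 0 ≤ lam H := by
  obtain ⟨v⟩ := ‹Nonempty V›
  have h := hR V H (Pi.single v 1)
  have h1 : ∑ u, (Pi.single v 1 : V → ℝ) u * nsum H (Pi.single v 1) u = 0 := by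
    rw [Finset.sum_eq_single v]
    · rw [Pi.single_eq_same, one_mul, nsum]
      refine Finset.sum_eq_zero fun w _ => ?_
      by_cases hw : w = v
      · subst hw
        rw [if_neg (H.loopless.irrefl w)]
      · rw [Pi.single_eq_of_ne hw]
        simp
    · intro u _ hu
      rw [Pi.single_eq_of_ne hu, zero_mul]
    · intro h; exact absurd (Finset.mem_univ _) h
  have h2 : ∑ u, (Pi.single v 1 : V → ℝ) u ^ 2 = 1 := by
    rw [Finset.sum_eq_single v]
    · simp
    · intro u _ hu
      rw [Pi.single_eq_of_ne hu]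
      norm_num
    · intro h; exact absurd (Finset.mem_univ _) h
  rw [h1, h2, mul_one] at h
  exact h

/-- the quadratic form after deleting the entry of `v` -/
lemma quad_erase (G : SimpleGraph V) (W : Finset V) (v : V) (x : V → ℝ) (l : ℝ)
    (hx : ∀ u, nsum (restr G W) x u = l * x u) :
    ∑ u, Function.update x v 0 u * nsum (restr G (W.erase v)) (Function.update x v 0) u =
      l * ∑ u, x u ^ 2 - 2 * l * x v ^ 2 := by
  set H := restr G W with hH
  set y := Function.update x v 0 with hy
  have hyv : y v = 0 := Function.update_self _ _ _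
  have hyu : ∀ u, u ≠ v → y u = x u := fun u hu => Function.update_of_ne hu _ _
  have h1 : ∀ u, y u * nsum (restr G (W.erase v)) y u =
      y u * (l * x u) - x v * (if H.Adj v u then y u else 0) := by
    intro u
    by_cases hu : u = v
    · subst hu
      rw [hyv, if_neg (H.loopless.irrefl u)]
      ring
    · have h2 : nsum (restr G (W.erase v)) y u = nsum H x u - (if H.Adj v u then x v else 0) := by
        rw [nsum, nsum, ← Finset.sum_erase_add _ _ (Finset.mem_univ v),
          ← Finset.sum_erase_add Finset.univ (fun w => if H.Adj u w then x w else 0)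
            (Finset.mem_univ v)]
        have h3 : (if (restr G (W.erase v)).Adj u v then y v else 0) = 0 := by
          rw [hyv]; simp
        have h4 : (if H.Adj u v then x v else 0) = (if H.Adj v u then x v else 0) := by
          simp only [H.adj_comm u v]
        rw [h3, h4, add_zero, add_sub_cancel_right]
        refine Finset.sum_congr rfl fun w hw => ?_
        have hwv : w ≠ v := (Finset.mem_erase.mp hw).1
        rw [hyu w hwv]
        have h5 : (restr G (W.erase v)).Adj u w ↔ H.Adj u w := by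
          simp only [restr, hH, Finset.mem_erase]
          tauto
        simp only [h5]
      rw [h2, hx u]
      split_ifs <;> ring
  rw [Finset.sum_congr rfl fun u _ => h1 u, Finset.sum_sub_distrib, ← Finset.mul_sum]
  have h6 : ∑ u, (if H.Adj v u then y u else 0) = l * x v := by
    rw [← hx v, nsum]
    refine Finset.sum_congr rfl fun u _ => ?_
    by_cases hu : u = v
    · subst hu
      rw [if_neg (H.loopless.irrefl u), if_neg (H.loopless.irrefl u)]
    · rw [hyu u hu]
  have h7 : ∑ u, y u * (l * x u) = l * (∑ u, x u ^ 2 - x v ^ 2) := by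
    have h8 : ∀ u, y u * (l * x u) = l * (x u ^ 2 - (if u = v then x v ^ 2 else 0)) := by
      intro u
      by_cases hu : u = v
      · subst hu
        rw [hyv, if_pos rfl]
        ring
      · rw [hyu u hu, if_neg hu]
        ring
    rw [Finset.sum_congr rfl fun u _ => h8 u, ← Finset.mul_sum, Finset.sum_sub_distrib,
      Finset.sum_ite_eq' Finset.univ v, if_pos (Finset.mem_univ v)]
  rw [h6, h7]
  ring

lemma sum_sq_update (v : V) (x : V → ℝ) :
    ∑ u, Function.update x v 0 u ^ 2 = ∑ u, x u ^ 2 - x v ^ 2 := by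
  have h8 : ∀ u, Function.update x v 0 u ^ 2 = x u ^ 2 - (if u = v then x v ^ 2 else 0) := by
    intro u
    by_cases hu : u = v
    · subst hu
      rw [Function.update_self, if_pos rfl]
      ring
    · rw [Function.update_of_ne hu, if_neg hu]
      ring
  rw [Finset.sum_congr rfl fun u _ => h8 u, Finset.sum_sub_distrib,
    Finset.sum_ite_eq' Finset.univ v, if_pos (Finset.mem_univ v)]

/-- Cauchy-Schwarz at `v` -/
lemma cauchy (G : SimpleGraph V) (W : Finset V) (v : V) (x : V → ℝ) :
    nsum (restr G W) x v ^ 2 ≤ (nb G v W : ℝ) * ∑ u, x u ^ 2 := by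
  have h1 : nsum (restr G W) x v = ∑ u ∈ univ.filter (fun u => (restr G W).Adj v u), x u := by
    rw [nsum, Finset.sum_filter]
  have h2 : univ.filter (fun u => (restr G W).Adj v u) ⊆ W.filter (fun w => G.Adj v w) := by
    intro u hu
    rw [Finset.mem_filter] at hu ⊢
    exact ⟨hu.2.2.2, hu.2.1⟩
  rw [h1]
  calc (∑ u ∈ univ.filter (fun u => (restr G W).Adj v u), x u) ^ 2
      ≤ (#(univ.filter (fun u => (restr G W).Adj v u)) : ℝ) *
        ∑ u ∈ univ.filter (fun u => (restr G W).Adj v u), x u ^ 2 :=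
        sq_sum_le_card_mul_sum_sq
    _ ≤ (nb G v W : ℝ) * ∑ u, x u ^ 2 := by
        have h3 : (#(univ.filter (fun u => (restr G W).Adj v u)) : ℝ) ≤ (nb G v W : ℝ) := by
          exact_mod_cast Finset.card_le_card h2
        have h4 : ∑ u ∈ univ.filter (fun u => (restr G W).Adj v u), x u ^ 2 ≤ ∑ u, x u ^ 2 :=
          Finset.sum_le_sum_of_subset_of_nonneg (Finset.subset_univ _) fun u _ _ => sq_nonneg _
        exact mul_le_mul h3 h4 (Finset.sum_nonneg fun u _ => sq_nonneg _) (Nat.cast_nonneg _)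

end

theorem nb1 : S_PERRON → S_RAY → S_NB1 := by
  intro hP hR V _ _ G W v hv hW hlam hd
  set N : ℝ := (#W : ℝ) with hN
  have hN10 : (10 : ℝ) ≤ N := by rw [hN]; exact_mod_cast hW
  set l := lam (restr G W) with hl
  set l' := lam (restr G (W.erase v)) with hl'
  have hl'0 : 0 ≤ l' := lam_nonneg hR _
  obtain ⟨x, hx0, ⟨u0, hu0⟩, hx⟩ := hP V (restr G W)
  set S2 := ∑ u, x u ^ 2 with hS2
  have hS2pos : 0 < S2 :=
    Finset.sum_pos' (fun u _ => sq_nonneg _) ⟨u0, Finset.mem_univ _, by positivity⟩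
  -- lower bound for `l`
  have hl0 : 0 < l := lt_of_le_of_lt (Real.sqrt_nonneg _) hlam
  have hfl : (N ^ 2 - 1) / 4 ≤ ((#W ^ 2 / 4 : ℕ) : ℝ) := by
    have h1 : #W ^ 2 ≤ 4 * (#W ^ 2 / 4) + 1 := by
      have h2 := Nat.div_add_mod (#W ^ 2) 4
      have h3 : #W ^ 2 % 4 ≤ 1 := by
        rcases Nat.even_or_odd' (#W) with ⟨t, ht | ht⟩
        · rw [ht]
          have : (2 * t) ^ 2 = 4 * t ^ 2 := by ring
          rw [this]; simp
        · rw [ht]
          have : (2 * t + 1) ^ 2 = 4 * (t ^ 2 + t) + 1 := by ring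
          rw [this]; omega
      omega
    have h4 : (N ^ 2 : ℝ) ≤ 4 * ((#W ^ 2 / 4 : ℕ) : ℝ) + 1 := by
      rw [hN]; exact_mod_cast h1
    linarith
  have hlsq : (N ^ 2 - 1) / 4 < l ^ 2 := by
    have h1 := Real.lt_sq_of_sqrt_lt hlam
    linarith
  have hlN : N / 2 - 1 / 20 < l := by
    by_contra hcon
    push Not at hcon
    have : l ^ 2 ≤ (N / 2 - 1 / 20) ^ 2 := by
      apply pow_le_pow_left₀ hl0.le hcon
    nlinarith
  -- the quadratic form
  have hq := hR V (restr G (W.erase v)) (Function.update x v 0)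
  rw [quad_erase G W v x l hx, sum_sq_update] at hq
  have hxv : x v ^ 2 ≤ S2 :=
    Finset.single_le_sum (f := fun u => x u ^ 2) (fun u _ => sq_nonneg _) (Finset.mem_univ v)
  have hc := cauchy G W v x
  rw [hx v] at hc
  have h1 : (l * x v) ^ 2 ≤ N / 10 * S2 := by
    refine hc.trans ?_
    gcongr
  -- `l' ≥ l - N / (5 l)`
  have h2 : l * S2 - 2 * l * x v ^ 2 ≤ l' * S2 := by
    have : l' * (S2 - x v ^ 2) ≤ l' * S2 := by
      have := mul_nonneg hl'0 (sq_nonneg (x v))
      nlinarith
    exact hq.trans this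
  have h3 : l ^ 2 - N / 5 ≤ l * l' := by
    have h4 : l * (l * S2 - 2 * l * x v ^ 2) ≤ l * (l' * S2) := mul_le_mul_of_nonneg_left h2 hl0.le
    have h5 : (l ^ 2 - N / 5) * S2 ≤ (l * l') * S2 := by nlinarith
    exact le_of_mul_le_mul_right h5 hS2pos
  have h6 : (N - 1) / 2 < l' := by
    by_contra hcon
    push Not at hcon
    have h7 : l * l' ≤ l * ((N - 1) / 2) := mul_le_mul_of_nonneg_left hcon hl0.le
    nlinarith
  have h8 : (((#W - 1) ^ 2 / 4 : ℕ) : ℝ) ≤ ((N - 1) / 2) ^ 2 := by
    have h9 : (((#W - 1) ^ 2 / 4 : ℕ) : ℝ) ≤ (((#W - 1) ^ 2 : ℕ) : ℝ) / 4 := by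
      have := Nat.cast_div_le (α := ℝ) (m := (#W - 1) ^ 2) (n := 4)
      exact_mod_cast this
    have h10 : (((#W - 1) ^ 2 : ℕ) : ℝ) = (N - 1) ^ 2 := by
      rw [hN]
      push_cast [Nat.cast_sub (show 1 ≤ #W by omega)]
      ring
    rw [h10] at h9
    linarith
  calc Real.sqrt (((#W - 1) ^ 2 / 4 : ℕ) : ℝ) ≤ Real.sqrt (((N - 1) / 2) ^ 2) :=
        Real.sqrt_le_sqrt h8
    _ = (N - 1) / 2 := Real.sqrt_sq (by linarith)
    _ < l' := h6

lemma erase_inst {V : Type} (d1 d2 : DecidableEq V) (W : Finset V) (w : V) :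
    (letI := d1; W.erase w) = (letI := d2; W.erase w) := by
  have h : d1 = d2 := Subsingleton.elim _ _
  subst h
  rfl

theorem nb2 : S_NB1 → S_NB2 := by
  intro hNB1 n G T hn hT hdeg hlam
  have hne : Nonempty (Fin n) := ⟨⟨0, by omega⟩⟩
  have hnR : (20 : ℝ) ≤ n := by exact_mod_cast hn
  set F : Finset (Finset (Fin n)) := univ.filter (fun W => T ⊆ W ∧
    Real.sqrt ((#W ^ 2 / 4 : ℕ) : ℝ) < lam (restr G W)) with hF
  have hu : univ ∈ F := by
    rw [hF, Finset.mem_filter]
    refine ⟨Finset.mem_univ _, Finset.subset_univ _, ?_⟩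
    have h1 : restr G univ = G := by
      ext a b
      simp [restr]
    rw [h1, Finset.card_univ, Fintype.card_fin]
    exact hlam
  obtain ⟨W, hW, hmin⟩ := Finset.exists_min_image F (fun W => #W) ⟨_, hu⟩
  rw [hF, Finset.mem_filter] at hW
  refine ⟨W, hW.2.1, hW.2.2, ?_⟩
  intro w hw
  by_contra hcon
  push Not at hcon
  have hTW : (#T : ℝ) ≤ #W := by exact_mod_cast Finset.card_le_card hW.2.1
  have hWn : (#W : ℝ) ≤ n := by
    have := Finset.card_le_univ W
    rw [Fintype.card_fin] at this
    exact_mod_cast this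
  have hW10 : 10 ≤ #W := by
    have h1 : (10 : ℝ) ≤ #W := by
      refine le_trans ?_ (hT.trans hTW)
      nlinarith
    exact_mod_cast h1
  have hwT : w ∉ T := by
    intro hwT
    have h1 := hdeg w hwT
    have h2 : nb G w univ ≤ nb G w W + #(univ \ W) := by
      rw [nb, nb]
      refine (Finset.card_le_card (t := W.filter (fun u => G.Adj w u) ∪ (univ \ W)) ?_).trans
        (Finset.card_union_le _ _)
      intro u hu
      rw [Finset.mem_filter] at hu
      rw [Finset.mem_union, Finset.mem_filter, Finset.mem_sdiff]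
      by_cases h : u ∈ W
      · exact Or.inl ⟨h, hu.2⟩
      · exact Or.inr ⟨Finset.mem_univ _, h⟩
    have h3 : #(univ \ W) = n - #W := by
      rw [← Finset.compl_eq_univ_sdiff, Finset.card_compl, Fintype.card_fin]
    have h4 : (nb G w univ : ℝ) ≤ (nb G w W : ℝ) + ((n : ℝ) - #W) := by
      rw [h3] at h2
      have h5 : #W ≤ n := by exact_mod_cast hWn
      have h6 : (nb G w univ : ℝ) ≤ ((nb G w W + (n - #W) : ℕ) : ℝ) := by exact_mod_cast h2
      rw [Nat.cast_add, Nat.cast_sub h5] at h6
      exact h6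
    nlinarith
  have hmem : W.erase w ∈ F := by
    rw [hF, Finset.mem_filter]
    refine ⟨Finset.mem_univ _, ?_, ?_⟩
    · intro t ht
      rw [Finset.mem_erase]
      exact ⟨fun h => hwT (h ▸ ht), hW.2.1 ht⟩
    · have h1 := hNB1 (Fin n) G W w hw hW10 hW.2.2 hcon
      rw [Finset.card_erase_of_mem hw]
      refine lt_of_lt_of_eq h1 ?_
      exact congrArg (fun Z => lam (restr G Z))
        (erase_inst (fun a b => Classical.propDecidable (a = b)) (instDecidableEqFin n) W w)
  have h1 := hmin _ hmem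
  have h2 := Finset.card_erase_lt_of_mem hw
  omega

end Pool.Agent.W857.CC.NB12
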