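import Pool.Agent.W857.CC.Stm

namespace Pool.Agent.W857.CC

open Finset
open scoped Classical

lemma Cst_lt_half : Cst < 2 / 5 := by
  unfold Cst
  have h : (11 / 5 : ℝ) < Real.sqrt 5 := by
    apply Real.lt_sqrt_of_sq_lt
    norm_num
  linarith

lemma Cst_gt : 1 / 4 < Cst := by
  unfold Cst
  have h : Real.sqrt 5 < 5 / 2 := by
    rw [Real.sqrt_lt' (by norm_num)]
    norm_num
  linarith

lemma sqrt_floor_ge (n : ℕ) : (n : ℝ) / 2 - 1 ≤ Real.sqrt ((n ^ 2 / 4 : ℕ) : ℝ) := by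
  rcases Nat.lt_or_ge n 2 with h | h
  · have h1 : (n : ℝ) / 2 - 1 ≤ 0 := by
      have : (n : ℝ) < 2 := by exact_mod_cast h
      linarith
    exact h1.trans (Real.sqrt_nonneg _)
  · apply Real.le_sqrt_of_sq_le
    have h2 : n ^ 2 < 4 * (n ^ 2 / 4) + 4 := by omega
    have h3 : (n : ℝ) ^ 2 < 4 * ((n ^ 2 / 4 : ℕ) : ℝ) + 4 := by exact_mod_cast h2
    have h4 : (2 : ℝ) ≤ n := by exact_mod_cast h
    nlinarith

lemma eb_restr_le {V : Type} (G : SimpleGraph V) (W A B : Finset V) :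
    eb (restr G W) A B ≤ eb G A B := by
  apply Finset.card_le_card
  intro p hp
  simp only [Finset.mem_filter] at hp ⊢
  exact ⟨hp.1, hp.2.1⟩

lemma eb_mono {V : Type} (G H : SimpleGraph V) (h : ∀ a b, G.Adj a b → H.Adj a b)
    (A B : Finset V) : eb G A B ≤ eb H A B := by
  apply Finset.card_le_card
  intro p hp
  simp only [Finset.mem_filter] at hp ⊢
  exact ⟨hp.1, h _ _ hp.2⟩

lemma eb_compl {V : Type} [Fintype V] (d1 d2 : DecidableEq V) (G : SimpleGraph V)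
    (A : Finset V) : eb G A (letI := d1; Aᶜ) = eb G A (letI := d2; Aᶜ) := by
  have h : d1 = d2 := Subsingleton.elim _ _
  subst h
  rfl

theorem sA (hF : S_FROB) (hC : S_COMP) (hB : S_BLOW) (hCut : S_CUT) (hM : S_MATCH)
    (hW : S_WALK) (hE : S_EMB) (hR : S_REG) (hCy : S_CYC) : S_A := by
  intro ε δ hε hδ
  obtain ⟨L, hW⟩ := hW
  -- constants
  obtain ⟨ε1, hε1, hε1ε, hε14⟩ : ∃ ε1 : ℝ, 0 < ε1 ∧ ε1 ≤ ε ∧ ε1 ≤ 1 / 4 :=
    ⟨min ε (1/4), lt_min hε (by norm_num), min_le_left _ _, min_le_right _ _⟩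
  obtain ⟨η, hη, hM⟩ := hM (ε1 / 4) (by positivity)
  obtain ⟨κ, hκ, hκη, hκδ, hκ1⟩ : ∃ κ : ℝ, 0 < κ ∧ 4 * κ ≤ η ∧ 4 * κ ≤ δ ∧ 4 * κ ≤ 1 :=
    ⟨min η (min δ 1) / 4, by positivity, by
      have := min_le_left η (min δ 1); linarith, by
      have h1 := min_le_right η (min δ 1)
      have h2 := min_le_left δ 1; linarith, by
      have h1 := min_le_right η (min δ 1)
      have h2 := min_le_right δ 1; linarith⟩
  set γ : ℝ := κ ^ 2 / 7 with hγ
  have hγ0 : 0 < γ := by positivity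
  have hγ1 : γ ≤ 1 := by rw [hγ]; nlinarith
  obtain ⟨ε0, hε0, hE⟩ := hE γ (ε1 / 4) hγ0 hγ1 (by positivity) (by linarith)
  obtain ⟨εR, hεR, hεR0, hεRγ⟩ : ∃ εR : ℝ, 0 < εR ∧ εR ≤ ε0 ∧ εR ≤ γ :=
    ⟨min ε0 γ, lt_min hε0 hγ0, min_le_left _ _, min_le_right _ _⟩
  obtain ⟨N, hE⟩ := hE εR hεR hεR0
  obtain ⟨M, n0, hR⟩ := hR γ εR hεR hεRγ hγ1
  set Lm : ℕ := (range (M + 1)).sup L with hLm
  -- large n
  obtain ⟨n1, hn1⟩ : ∃ n1 : ℕ, ((1 + M) / κ + 4 * M / ε1 + M * (4 * Lm / ε1 + 1) + M * (N + 1) + 2 / δ + 1 : ℝ) ≤ n1 :=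
    exists_nat_ge _
  refine ⟨max n0 n1, fun n hn G hlam => ?_⟩
  have hn0 : n0 ≤ n := le_trans (le_max_left _ _) hn
  have hnn : (n1 : ℝ) ≤ n := by exact_mod_cast le_trans (le_max_right _ _) hn
  have hbig : ((1 + M) / κ + 4 * M / ε1 + M * (4 * Lm / ε1 + 1) + M * (N + 1) + 2 / δ + 1 : ℝ) ≤ n :=
    hn1.trans hnn
  have t1 : (0 : ℝ) ≤ (1 + M) / κ := by positivity
  have t2 : (0 : ℝ) ≤ 4 * M / ε1 := by positivity
  have t3 : (0 : ℝ) ≤ M * (4 * Lm / ε1 + 1) := by positivity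
  have t4 : (0 : ℝ) ≤ M * ((N : ℝ) + 1) := by positivity
  have t5 : (0 : ℝ) ≤ 2 / δ := by positivity
  have b1 : (1 + M : ℝ) ≤ κ * n := by
    have : (1 + M) / κ ≤ n := by linarith
    rw [div_le_iff₀ hκ] at this; linarith
  have b2 : 4 * (M : ℝ) ≤ ε1 * n := by
    have : 4 * M / ε1 ≤ n := by linarith
    rw [div_le_iff₀ hε1] at this; linarith
  have b3 : (M : ℝ) * (4 * Lm / ε1 + 1) ≤ n := by linarith
  have b4 : (M : ℝ) * ((N : ℝ) + 1) ≤ n := by linarith
  have b5 : 2 ≤ δ * n := by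
    have : 2 / δ ≤ n := by linarith
    rw [div_le_iff₀ hδ] at this; linarith
  have hn1' : (1 : ℝ) ≤ n := by linarith
  have hnpos : 0 < n := by
    have : (0 : ℝ) < n := by linarith
    exact_mod_cast this
  have : Nonempty (Fin n) := ⟨⟨0, hnpos⟩⟩
  obtain ⟨k, hk1, hkM, part, R, hsz, hreg, hkill⟩ := hR n hn0 G
  have hkpos : (0 : ℝ) < k := by exact_mod_cast hk1
  have hk1' : (1 : ℝ) ≤ k := by exact_mod_cast hk1
  have hkM' : (k : ℝ) ≤ M := by exact_mod_cast hkM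
  -- the cleaned graph
  let H : SimpleGraph (Fin n) :=
    { Adj := fun u v => G.Adj u v ∧ R.Adj (part u) (part v)
      symm := ⟨fun _ _ h => ⟨h.1.symm, h.2.symm⟩⟩
      loopless := ⟨fun _ h => G.loopless.irrefl _ h.1⟩ }
  have hlamH : lam G - κ * n ≤ lam H := by
    have h := hF (Fin n) G H (7 * γ * n ^ 2) (by
      refine le_trans ?_ hkill
      exact_mod_cast Finset.card_le_card (by
        intro p hp
        simp only [Finset.mem_filter, Finset.mem_univ, true_and] at hp ⊢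
        exact ⟨hp.1, fun h => hp.2 ⟨hp.1, h⟩⟩))
    have hs : Real.sqrt (7 * γ * n ^ 2) = κ * n := by
      rw [show 7 * γ * (n : ℝ) ^ 2 = (κ * n) ^ 2 by rw [hγ]; ring]
      exact Real.sqrt_sq (by positivity)
    rw [hs] at h
    exact h
  obtain ⟨S, hSconn, hSlam⟩ := hC (Fin n) k H part R (fun u v h => h.2)
  set H' := restr H (univ.filter fun v => part v ∈ S) with hH'
  set R' := restr R S with hR'
  have hadj : ∀ u v, H'.Adj u v → R'.Adj (part u) (part v) := by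
    intro u v h
    obtain ⟨h1, h2, h3⟩ := h
    simp only [Finset.mem_filter, Finset.mem_univ, true_and] at h2 h3
    exact ⟨h1.2, h2, h3⟩
  have hlamH' : (1 / 2 - κ) * n - 1 ≤ lam H' := by
    have := sqrt_floor_ge n
    have h2 : lam H ≤ lam H' := hSlam
    nlinarith
  by_cases htri : ∀ a b c, R'.Adj a b → R'.Adj b c → ¬ R'.Adj a c
  · -- nearly bipartite
    left
    obtain ⟨A, hA⟩ := hCut (Fin n) H' (fun a b c h1 h2 h3 =>
      htri _ _ _ (hadj _ _ h1) (hadj _ _ h2) (hadj _ _ h3))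
    refine ⟨A, ?_⟩
    have h1 : (eb H' A Aᶜ : ℝ) ≤ eb G A Aᶜ := by
      exact_mod_cast eb_mono H' G (fun a b (h : H'.Adj a b) => h.1.1) A Aᶜ
    have hA' : lam H' ^ 2 ≤ (eb H' A Aᶜ : ℝ) :=
      hA.trans (le_of_eq (congrArg Nat.cast
        (eb_compl (fun a b => Classical.propDecidable (a = b)) (instDecidableEqFin n) H' A)))
    have h0 : 0 ≤ (1 / 2 - κ) * n - 1 := by
      have : 1 ≤ κ * n := by linarith [b1, (Nat.cast_nonneg M : (0:ℝ) ≤ M)]
      nlinarith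
    have h2 : ((1 / 2 - κ) * n - 1) ^ 2 ≤ lam H' ^ 2 := by
      apply pow_le_pow_left₀ h0 hlamH'
    have h3 : (1 / 4 - δ) * (n : ℝ) ^ 2 ≤ ((1 / 2 - κ) * n - 1) ^ 2 := by
      nlinarith [mul_nonneg hδ.le (sq_nonneg (n : ℝ)), mul_le_mul_of_nonneg_right b5 (by linarith : (0:ℝ) ≤ n),
        mul_nonneg (sub_nonneg.2 hκδ) (sq_nonneg (n : ℝ)), sq_nonneg (κ * n), sq_nonneg (n:ℝ)]
    linarith
  · -- a triangle
    right
    push Not at htri
    obtain ⟨ta, tb, tc, ht1, ht2, ht3⟩ := htri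
    intro ℓ hℓ3 hℓ
    -- lam R'
    have hszU : ∀ i, (#(cl part i) : ℝ) ≤ n / k + 1 := fun i => (hsz i).2
    have hblow := hB (Fin n) k H' part R' ((n : ℝ) / k + 1) hadj hszU
    have hlamR : (1 / 2 - η) * k ≤ lam R' := by
      by_contra hcon
      push Not at hcon
      have hpos : (0 : ℝ) < n / k + 1 := by positivity
      have h1 : lam H' < (n / k + 1) * ((1 / 2 - η) * k) :=
        lt_of_le_of_lt hblow (mul_lt_mul_of_pos_left hcon hpos)
      have h2 : ((n : ℝ) / k + 1) * ((1 / 2 - η) * k) = (1 / 2 - η) * (n + k) := by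
        field_simp
      rw [h2] at h1
      nlinarith [mul_nonneg hη.le hkpos.le, mul_nonneg hη.le (by linarith : (0:ℝ) ≤ n),
        mul_le_mul_of_nonneg_right hκη (by linarith : (0:ℝ) ≤ n)]
    obtain ⟨D, f, hfinj, hfadj, hDcard⟩ := hM k hk1 R' hlamR
    -- choice of r
    have hq : (1 : ℝ) ≤ n / k - 1 ∨ True := Or.inr trivial
    have hnk : (n : ℝ) / k * k = n := by field_simp
    have hnkM : (n : ℝ) / M ≤ n / k := by
      apply div_le_div_of_nonneg_left (by linarith) hkpos hkM'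
    have hMpos : (0 : ℝ) < M := lt_of_lt_of_le hkpos hkM'
    have hLk : (L k : ℝ) ≤ Lm := by
      have : L k ≤ Lm := by
        rw [hLm]
        exact Finset.le_sup (f := L) (Finset.mem_range.2 (by omega))
      exact_mod_cast this
    have c1 : 4 * (Lm : ℝ) / ε1 + 1 ≤ n / k := by
      have : 4 * (Lm : ℝ) / ε1 + 1 ≤ n / M := by
        rw [le_div_iff₀ hMpos]; linarith
      linarith
    have c2 : (N : ℝ) + 1 ≤ n / k := by
      have : (N : ℝ) + 1 ≤ n / M := by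
        rw [le_div_iff₀ hMpos]; linarith
      linarith
    have c3 : (Lm : ℝ) ≤ ε1 / 4 * (n / k - 1) := by
      have : 4 * (Lm : ℝ) / ε1 ≤ n / k - 1 := by linarith
      rw [div_le_iff₀ hε1] at this
      linarith
    have hqn : (0 : ℝ) ≤ n / k - 1 := by
      have : (0 : ℝ) ≤ N := Nat.cast_nonneg _
      linarith
    set r : ℕ := ⌊(1 - ε1 / 2) * (n / k - 1) / 2⌋₊ with hr
    have hr1 : 2 * (r : ℝ) ≤ (1 - ε1 / 2) * (n / k - 1) := by
      have : (r : ℝ) ≤ (1 - ε1 / 2) * (n / k - 1) / 2 :=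
        Nat.floor_le (by
          apply div_nonneg _ (by norm_num)
          apply mul_nonneg _ hqn
          linarith)
      linarith
    have hr2 : (1 - ε1 / 2) * (n / k - 1) - 2 ≤ 2 * (r : ℝ) := by
      have : (1 - ε1 / 2) * (n / k - 1) / 2 < r + 1 := Nat.lt_floor_add_one _
      linarith
    have hCstlt := Cst_lt_half
    have hCstgt := Cst_gt
    have hℓD : ℓ ≤ 2 * r * #D := by
      have hreal : (ℓ : ℝ) ≤ 2 * r * #D := by
        have hr0 : (0 : ℝ) ≤ 2 * r := by positivity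
        have e1 : 2 * (r : ℝ) * ((Cst - ε1 / 4) * k) ≤ 2 * r * #D :=
          mul_le_mul_of_nonneg_left hDcard hr0
        have e2 : ((1 - ε1 / 2) * (n / k - 1) - 2) * ((Cst - ε1 / 4) * k) ≤
            2 * (r : ℝ) * ((Cst - ε1 / 4) * k) :=
          mul_le_mul_of_nonneg_right hr2 (by
            apply mul_nonneg _ hkpos.le
            linarith)
        have e3 : ((1 - ε1 / 2) * ((n : ℝ) / k - 1) - 2) * ((Cst - ε1 / 4) * k) =
            (Cst - ε1 / 4) * ((1 - ε1 / 2) * (n - k) - 2 * k) := by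
          have : ((1 - ε1 / 2) * ((n : ℝ) / k - 1) - 2) * ((Cst - ε1 / 4) * k) =
            (Cst - ε1 / 4) * ((1 - ε1 / 2) * (n / k * k - k) - 2 * k) := by ring
          rw [this, hnk]
        have e4 : (Cst - ε1) * n ≤ (Cst - ε1 / 4) * ((1 - ε1 / 2) * ((n : ℝ) - k) - 2 * k) := by
          have hn0' : (0 : ℝ) ≤ n := by linarith
          have f1 : (0 : ℝ) ≤ Cst - ε1 / 4 := by linarith
          have f2 : (1 - ε1 / 2) * (n : ℝ) - 3 * k ≤ (1 - ε1 / 2) * ((n : ℝ) - k) - 2 * k := by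
            nlinarith [mul_nonneg hε1.le hkpos.le]
          have f3 := mul_le_mul_of_nonneg_left f2 f1
          refine le_trans ?_ f3
          -- (C - e)(1 - e/2... )
          have f4 : (Cst - ε1 / 4) * (3 * k) ≤ 2 / 5 * (3 * k) := by
            apply mul_le_mul_of_nonneg_right _ (by positivity)
            linarith
          have f5 : (Cst - ε1 / 2) * (n : ℝ) ≤ (Cst - ε1 / 4) * (1 - ε1 / 2) * n := by
            apply mul_le_mul_of_nonneg_right _ hn0'
            nlinarith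
          nlinarith [b2, hkM']
        have e5 : (ℓ : ℝ) ≤ (Cst - ε1) * n := by
          refine hℓ.trans ?_
          apply mul_le_mul_of_nonneg_right _ (by linarith)
          linarith
        linarith
      exact_mod_cast hreal
    obtain ⟨c, hc, hvis⟩ := hW k R' S hSconn (fun i j h => h.2) ⟨ta, tb, tc, ht1, ht2, ht3⟩
      D f hfinj hfadj r ℓ hℓ3 hℓD
    apply hCy (Fin n) G ℓ hℓ3
    refine hE (Fin n) k G part R' (fun i j h => hreg i j h.1) ?_ ℓ c hℓ3 hc ?_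
    · intro i
      have h1 := (hsz i).1
      have : (N : ℝ) ≤ #(cl part i) := by linarith
      exact_mod_cast this
    · intro i
      have h1 := (hsz i).1
      have h2 : (visits ℓ c i : ℝ) ≤ L k + 2 * r := by exact_mod_cast hvis i
      have h3 : (1 - ε1 / 4) * ((n : ℝ) / k - 1) ≤ (1 - ε1 / 4) * #(cl part i) :=
        mul_le_mul_of_nonneg_left h1 (by linarith)
      nlinarith

end Pool.Agent.W857.CC
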