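import Pool.Agent.W857.CC.AsmA

namespace Pool.Agent.W857.CC

open Finset
open scoped Classical

theorem final (hA : S_A) (hNB : S_NB) (hUP : S_UP) : IsGreatest {C : ℝ | Admissible C} Cst := by
  have hc1 := Cst_lt_half
  have hc2 := Cst_gt
  constructor
  · refine ⟨by linarith, fun ε hε hεC => ?_⟩
    obtain ⟨n0, h⟩ := hA ε (1 / 10 ^ 8) hε (by norm_num)
    refine ⟨max n0 1000, fun n hn G hlam ℓ hℓ3 hℓ => ?_⟩
    have hn0 : n0 ≤ n := le_trans (le_max_left _ _) hn
    have hn1 : 1000 ≤ n := le_trans (le_max_right _ _) hn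
    rcases h n hn0 G hlam with ⟨A, hcut⟩ | h
    · refine hNB n hn1 G A hlam hcut ℓ hℓ3 (hℓ.trans ?_)
      apply mul_le_mul_of_nonneg_right _ (Nat.cast_nonneg _)
      linarith
    · exact h ℓ hℓ3 hℓ
  · intro C hC
    by_contra hcon
    push Not at hcon
    exact hUP C hcon hC

end Pool.Agent.W857.CC
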